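import Pool.Agent.Helper98.TA.Stmts2
import Mathlib.Probability.ConditionalProbability

/-!
Uniquely ergodic models of inverse limits of iterated extensions by compact abelian Lie groups
(MP_7a8f48_an): definitions and statements of the sheet ZA. There is no total ergodicity here.
-/

open MeasureTheory Filter Topology Finset
open scoped ComplexConjugate

namespace Pool.Agent.Helper98.ZA

open Pool.Agent.Helper98.TW (SA jo bo cm AM UF BF Sys Lm IA LQ Inc sg Grp)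
open Pool.Agent.Helper98.TA (Tr ad Pw)
open Pool.Agent.Helper40.TWM (St)
open Pool.Agent.Helper98.GY (JY JJY)
open Pool.Agent.Helper16.MD (MS)

/-! ### definitions -/

/-- a generating triangular sequence of unimodular functions -/
structure Tu {Y : Type} [MeasurableSpace Y] (ν : Measure Y) (S : Y → Y) (u : ℕ → Y → ℂ) :
    Prop where
  meas : ∀ k, Measurable (u k)
  norm : ∀ k y, ‖u k y‖ = 1
  inc : ∀ k, ∃ g : (Fin k → ℂ) → ℂ, Measurable g ∧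
    ∀ᵐ y ∂ν, u k (S y) = u k y * g (fun i => u i y)
  gen : ∀ s, MeasurableSet s → ∃ t,
    MeasurableSet[⨆ k, MeasurableSpace.comap (u k) inferInstance] t ∧ s =ᵐ[ν] t

/-- the first `k` functions -/
def pr {Y : Type} (u : ℕ → Y → ℂ) (k : ℕ) (y : Y) : Fin k → ℂ := fun i => u i y

/-- the coordinates -/
def co {k : ℕ} (i : ℕ) (z : Fin k → ℂ) : ℂ := if h : i < k then z ⟨i, h⟩ else 1

/-- the only invariant probability measure -/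
def Un {Y : Type} [MeasurableSpace Y] (S : Y → Y) (ν : Measure Y) : Prop :=
  MeasurePreserving S ν ν ∧
  ∀ ν' : Measure Y, IsProbabilityMeasure ν' → MeasurePreserving S ν' ν' → ν' = ν

/-- `B` is a set of measure `1/m` whose first `m` inverse images are disjoint, and `S^m` is a
totally ergodic tower on `B` -/
structure Pe {Ω : Type} [MeasurableSpace Ω] (μ : Measure Ω) (S S' : Ω → Ω) (u : ℕ → Ω → ℂ)
    (N m : ℕ) (B : Set Ω) : Prop where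
  pos : 1 ≤ m
  meas : MeasurableSet B
  mass : (m : ENNReal) * μ B = 1
  per : (S^[m]) ⁻¹' B =ᵐ[μ] B
  disj : ∀ i, 0 < i → i < m → μ (B ∩ S^[i] ⁻¹' B) = 0
  st : St (ProbabilityTheory.cond μ B) S^[m] S'^[m]
  tr : ∃ A : ℕ → SA Ω, Tr (ProbabilityTheory.cond μ B) S^[m] u A N

/-! ### Block R: realisation and the periodic part -/

/-- ZRL: the first `k` functions as a tower on `ℂ^k`. -/
def ST_ZRL : Prop := ∀ (Y : Type) [MeasurableSpace Y] (ν : Measure Y) [IsProbabilityMeasure ν]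
  (S : Y → Y) (u : ℕ → Y → ℂ), MeasurePreserving S ν ν → Tu ν S u → ∀ k : ℕ,
  ∃ R R' : (Fin k → ℂ) → (Fin k → ℂ), Sys (ν.map (pr u k)) R R' ∧
    (∀ᵐ y ∂ν, pr u k (S y) = R (pr u k y)) ∧
    ∃ A : ℕ → SA (Fin k → ℂ), Tr (ν.map (pr u k)) R (fun i z => co i z) A k

/-- ZTB: rational eigenvalues of a tower have bounded order. -/
def ST_ZTB : Prop := ∀ (Ω : Type) [MeasurableSpace Ω] (μ : Measure Ω) [IsProbabilityMeasure μ]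
  (S S' : Ω → Ω) (u : ℕ → Ω → ℂ) (A : ℕ → SA Ω) (N : ℕ), Sys μ S S' → Ergodic S μ →
  Tr μ S u A N → ∃ m₀ : ℕ, 1 ≤ m₀ ∧ ∀ ψ, UF μ ψ → Inc μ bo S ψ → ∀ M : ℕ, 1 ≤ M →
    AM μ bo (fun x => ψ x ^ M) → AM μ bo (fun x => ψ x ^ m₀)

/-- ZTR: towers for powers on invariant sets. -/
def ST_ZTR : Prop := ∀ (Ω : Type) [MeasurableSpace Ω] (μ : Measure Ω) [IsProbabilityMeasure μ]
  (S S' : Ω → Ω) (u : ℕ → Ω → ℂ) (A : ℕ → SA Ω) (N m : ℕ) (B : Set Ω), Sys μ S S' →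
  Tr μ S u A N → MeasurableSet B → 0 < μ B → (S^[m]) ⁻¹' B =ᵐ[μ] B →
  Sys (ProbabilityTheory.cond μ B) S^[m] S'^[m] ∧
  ∃ A' : ℕ → SA Ω, Tr (ProbabilityTheory.cond μ B) S^[m] u A' N

/-- ZFT: the periodic part of an ergodic tower. -/
def ST_ZFT : Prop := ∀ (Ω : Type) [MeasurableSpace Ω] (μ : Measure Ω) [IsProbabilityMeasure μ]
  (S S' : Ω → Ω) (u : ℕ → Ω → ℂ) (A : ℕ → SA Ω) (N : ℕ), Sys μ S S' → Ergodic S μ →
  Tr μ S u A N → ∃ (m : ℕ) (B : Set Ω), Pe μ S S' u N m B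

/-- ZMJ: ergodic joinings of the powers of the transformation of `B`. -/
def ST_ZMJ : Prop := ∀ (Ω : Type) [MeasurableSpace Ω] (μ : Measure Ω) [IsProbabilityMeasure μ]
  (S S' : Ω → Ω) (u : ℕ → Ω → ℂ) (N m : ℕ) (B : Set Ω), Sys μ S S' → Ergodic S μ →
  Pe μ S S' u N m B → ∀ (p q : ℕ) (κ : Measure (Ω × Ω)), IsProbabilityMeasure κ → 1 ≤ p →
  1 ≤ q → Ergodic (Prod.map S^[p * m] S^[q * m]) κ → κ.map Prod.fst ≪ μ →
  κ.map Prod.snd ≪ μ → ∃ i < m, ∃ j < m,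
    JY S^[m] (ProbabilityTheory.cond μ B) p q (κ.map (Prod.map S^[i] S^[j])) ∧
    (∀ᵐ z ∂κ, S^[i] z.1 ∈ B ∧ S^[j] z.2 ∈ B)

/-- ZAO: correlations for ergodic towers. -/
def ST_ZAO : Prop := ∀ (Ω : Type) [MeasurableSpace Ω] (μ : Measure Ω) [IsProbabilityMeasure μ]
  (S S' : Ω → Ω) (u : ℕ → Ω → ℂ) (N m : ℕ) (B : Set Ω), Sys μ S S' → Ergodic S μ →
  Pe μ S S' u N m B → ∀ G : Ω → ℂ, BF G →
  (∀ i < m, ∫ x in S^[i] ⁻¹' B, G x ∂μ = 0) → ∀ ε : ℝ, 0 < ε →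
  ∃ q₀ : ℕ, ∀ q ≥ q₀, q.Prime → ∀ p : ℕ, p.Prime → p ≠ q → ∀ κ : Measure (Ω × Ω),
    IsProbabilityMeasure κ → Ergodic (Prod.map S^[p * m] S^[q * m]) κ →
    κ.map Prod.fst ≪ μ → κ.map Prod.snd ≪ μ →
    ‖∫ z, G z.1 * conj (G z.2) ∂κ‖ ≤ ε

/-! ### Block N: the Moebius function -/

/-- ZKB: the criterion of Katai with finitely many primes. -/
def ST_ZKB : Prop := ∀ η : ℝ, 0 < η → η ≤ 1 → ∃ c : ℝ, 0 < c ∧ ∀ P₀ : ℕ, ∃ P₁ : ℕ,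
  ∀ a : ℕ → ℂ, (∀ n, ‖a n‖ ≤ 1) →
  (∀ p q : ℕ, p.Prime → q.Prime → p ≠ q → P₀ ≤ p → P₀ ≤ q → p ≤ P₁ → q ≤ P₁ →
    ∀ᶠ M : ℕ in atTop, ‖∑ n ∈ Icc 1 M, a (p * n) * conj (a (q * n))‖ ≤ c * M) →
  ∀ᶠ N : ℕ in atTop, ‖MS a N‖ ≤ η * N

/-- ZMR: the Moebius function in short progressions (Matomaki and Radziwill). -/
def ST_ZMR : Prop := ∀ (m : ℕ) (δ : ℝ), 1 ≤ m → 0 < δ → ∃ J : ℕ, 1 ≤ J ∧ ∀ᶠ N : ℕ in atTop,
  ∑ x ∈ range N, ∑ r ∈ range m,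
    ‖∑ j ∈ range J, ((ArithmeticFunction.moebius (x + r + m * j) : ℤ) : ℂ)‖ ≤ δ * (m * J * N)

/-! ### Block Y: the space `Y` -/

/-- ZUE: averages along orbits. -/
def ST_ZUE : Prop := ∀ (Y : Type) [MetricSpace Y] [CompactSpace Y] [MeasurableSpace Y]
  [BorelSpace Y] (ν : Measure Y) [IsProbabilityMeasure ν] (S : Y → Y), Continuous S → Un S ν →
  ∀ (F : C(Y, ℝ)) (y : Y),
  Tendsto (fun N : ℕ => (∑ n ∈ range N, F (S^[n] y)) / (N : ℝ)) atTop (𝓝 (∫ x, F x ∂ν)) ∧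
  Tendsto (fun N : ℕ => (∑ n ∈ Icc 1 N, F (S^[n] y)) / (N : ℝ)) atTop (𝓝 (∫ x, F x ∂ν))

/-- ZAC: invariant measures of powers. -/
def ST_ZAC : Prop := ∀ (Y : Type) [MeasurableSpace Y] (ν : Measure Y) [IsProbabilityMeasure ν]
  (S : Y → Y), Measurable S → Un S ν → Ergodic S ν ∧
  ∀ (p : ℕ) (ν' : Measure Y), 1 ≤ p → IsProbabilityMeasure ν' →
    MeasurePreserving S^[p] ν' ν' → ∀ s : Set Y, MeasurableSet s → ν' s ≤ p * ν s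

/-- ZAP: approximation by continuous functions. -/
def ST_ZAP : Prop := ∀ (Y : Type) [MetricSpace Y] [CompactSpace Y] [MeasurableSpace Y]
  [BorelSpace Y] (ν : Measure Y) [IsProbabilityMeasure ν] (G : Y → ℂ) (b ε : ℝ),
  Measurable G → (∀ y, ‖G y‖ ≤ b) → 0 < ε →
  ∃ G' : C(Y, ℂ), (∀ y, ‖G' y‖ ≤ b) ∧ ∫ y, ‖G y - G' y‖ ^ 2 ∂ν ≤ ε

/-- ZCO: correlations along orbits. -/
def ST_ZCO : Prop := ∀ (Y : Type) [MetricSpace Y] [CompactSpace Y] [MeasurableSpace Y]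
  [BorelSpace Y] (S : Y → Y) (p q m : ℕ) (G : C(Y, ℂ)) (c ε : ℝ), Continuous S → 1 ≤ m →
  0 < ε → (∀ κ : Measure (Y × Y), IsProbabilityMeasure κ →
    Ergodic (Prod.map S^[p * m] S^[q * m]) κ → ‖∫ z, G z.1 * conj (G z.2) ∂κ‖ ≤ c) →
  ∀ y : Y, ∀ᶠ M : ℕ in atTop,
    ‖∑ n ∈ Icc 1 M, G (S^[p * n] y) * conj (G (S^[q * n] y))‖ ≤ (c + ε) * M

/-- ZPH: functions which are almost periodic with the period `m`. -/
def ST_ZPH : Prop := ∀ (Y : Type) [MetricSpace Y] [CompactSpace Y] [MeasurableSpace Y]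
  [BorelSpace Y] (ν : Measure Y) [IsProbabilityMeasure ν] (S : Y → Y), Continuous S → Un S ν →
  ∀ (m : ℕ) (H : C(Y, ℂ)) (P : Y → ℂ) (δ : ℝ), 1 ≤ m → 0 < δ → (∀ y, ‖H y‖ ≤ 1) →
  Measurable P → MemLp P 2 ν → (∀ᵐ y ∂ν, P (S^[m] y) = P y) →
  ∫ y, ‖H y - P y‖ ^ 2 ∂ν ≤ δ ^ 2 →
  ∀ y : Y, ∀ᶠ N : ℕ in atTop, ‖MS (fun n => H (S^[n] y)) N‖ ≤ 3 * δ * N

/-- ZCE: a bounded function is near a function of finitely many coordinates. -/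
def ST_ZCE : Prop := ∀ (Y : Type) [MeasurableSpace Y] (ν : Measure Y) [IsProbabilityMeasure ν]
  (S : Y → Y) (u : ℕ → Y → ℂ), Tu ν S u → ∀ (F : Y → ℂ) (ε : ℝ), Measurable F →
  (∀ y, ‖F y‖ ≤ 1) → 0 < ε → ∃ (k : ℕ) (f : (Fin k → ℂ) → ℂ), Measurable f ∧
    (∀ z, ‖f z‖ ≤ 1) ∧ ∫ y, ‖F y - f (pr u k y)‖ ^ 2 ∂ν ≤ ε

/-- ZPP: the periodic part of a function. -/
def ST_ZPP : Prop := ∀ (Ω : Type) [MeasurableSpace Ω] (μ : Measure Ω) [IsProbabilityMeasure μ]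
  (S S' : Ω → Ω) (u : ℕ → Ω → ℂ) (N m : ℕ) (B : Set Ω), Sys μ S S' →
  Pe μ S S' u N m B → ∀ f : Ω → ℂ, Measurable f → (∀ x, ‖f x‖ ≤ 1) →
  ∃ P : Ω → ℂ, Measurable P ∧ (∀ x, ‖P x‖ ≤ 1) ∧ (∀ᵐ x ∂μ, P (S^[m] x) = P x) ∧
    ∀ i < m, ∫ x in S^[i] ⁻¹' B, (f x - P x) ∂μ = 0

/-- ZTY: correlations of functions of finitely many coordinates on `Y`. -/
def ST_ZTY : Prop := ∀ (Y : Type) [MetricSpace Y] [CompactSpace Y] [MeasurableSpace Y]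
  [BorelSpace Y] (ν : Measure Y) [IsProbabilityMeasure ν] (S : Y → Y) (u : ℕ → Y → ℂ),
  Continuous S → Un S ν → Tu ν S u → ∀ (k : ℕ) (f : (Fin k → ℂ) → ℂ), Measurable f →
  (∀ z, ‖f z‖ ≤ 1) → ∃ (m : ℕ) (P : (Fin k → ℂ) → ℂ), 1 ≤ m ∧ Measurable P ∧
  (∀ z, ‖P z‖ ≤ 1) ∧ (∀ᵐ y ∂ν, P (pr u k (S^[m] y)) = P (pr u k y)) ∧
  ∀ ε : ℝ, 0 < ε → ∃ q₀ : ℕ, ∀ q ≥ q₀, q.Prime → ∀ p : ℕ, p.Prime → p ≠ q →
    ∀ κ : Measure (Y × Y), IsProbabilityMeasure κ →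
    Ergodic (Prod.map S^[p * m] S^[q * m]) κ →
    ‖∫ z, (f (pr u k z.1) - P (pr u k z.1)) *
      conj (f (pr u k z.2) - P (pr u k z.2)) ∂κ‖ ≤ ε

/-- ZMN: the theorem. -/
def ST_ZMN : Prop := ∀ (Y : Type) [MetricSpace Y] [CompactSpace Y] [MeasurableSpace Y]
  [BorelSpace Y] (ν : Measure Y) [IsProbabilityMeasure ν] (S : Y → Y) (u : ℕ → Y → ℂ),
  Continuous S → Un S ν → Tu ν S u → ∀ (F : C(Y, ℂ)) (y : Y),
  Tendsto (fun N : ℕ => MS (fun n => F (S^[n] y)) N / (N : ℂ)) atTop (𝓝 0)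

end Pool.Agent.Helper98.ZA
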