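import Pool.Agent.Helper98.ZA.Stmts

/-!
Sheet ZA (MP_7a8f48_an), row ZMN: the theorem.
-/

set_option linter.unusedSectionVars false

open MeasureTheory Filter Topology Finset
open scoped ComplexConjugate

namespace Pool.Agent.Helper98.ZA

open Pool.Agent.Helper16.MD (MS)

section gen

variable {Ω : Type} [MeasurableSpace Ω] {μ : Measure Ω} [IsProbabilityMeasure μ]

/-- the mean is at most the quadratic mean -/
theorem l1_of_l2 {h : Ω → ℂ} (hh : MemLp h 2 μ) {t : ℝ} (ht : 0 ≤ t)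
    (h2 : ∫ x, ‖h x‖ ^ 2 ∂μ ≤ t ^ 2) : ∫ x, ‖h x‖ ∂μ ≤ t := by
  have i1 : Integrable (fun x => ‖h x‖ ^ 2) μ := hh.integrable_norm_pow (by norm_num)
  have i2 : Integrable (fun x => ‖h x‖) μ := (hh.integrable (by norm_num)).norm
  set c := ∫ x, ‖h x‖ ∂μ with hc
  have hc0 : 0 ≤ c := integral_nonneg fun x => norm_nonneg _
  have h3 : 0 ≤ ∫ x, (‖h x‖ - c) ^ 2 ∂μ := integral_nonneg fun x => sq_nonneg _
  have h4 : ∫ x, (‖h x‖ - c) ^ 2 ∂μ = ∫ x, ‖h x‖ ^ 2 ∂μ - c ^ 2 := by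
    have h5 : ∀ x, (‖h x‖ - c) ^ 2 = ‖h x‖ ^ 2 - (2 * c * ‖h x‖ - c ^ 2) := fun x => by ring
    have i3 : Integrable (fun x => 2 * c * ‖h x‖) μ := i2.const_mul (2 * c)
    have i4 : Integrable (fun x => 2 * c * ‖h x‖ - c ^ 2) μ := i3.sub (integrable_const _)
    simp only [h5]
    rw [integral_sub i1 i4, integral_sub i3 (integrable_const _), integral_const_mul, ← hc]
    simp
    ring
  rw [h4] at h3
  have h5 : c ^ 2 ≤ t ^ 2 := by linarith
  exact (pow_le_pow_iff_left₀ hc0 ht (by norm_num)).1 h5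

theorem mp_fst {κ : Measure (Ω × Ω)} {T T' : Ω → Ω} (hT : Measurable T)
    (h : MeasurePreserving (Prod.map T T') κ κ) :
    MeasurePreserving T (κ.map Prod.fst) (κ.map Prod.fst) := by
  refine ⟨hT, ?_⟩
  rw [Measure.map_map hT measurable_fst]
  have : T ∘ (Prod.fst : Ω × Ω → Ω) = Prod.fst ∘ Prod.map T T' := rfl
  rw [this, ← Measure.map_map measurable_fst h.measurable, h.map_eq]

theorem mp_snd {κ : Measure (Ω × Ω)} {T T' : Ω → Ω} (hT : Measurable T')
    (h : MeasurePreserving (Prod.map T T') κ κ) :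
    MeasurePreserving T' (κ.map Prod.snd) (κ.map Prod.snd) := by
  refine ⟨hT, ?_⟩
  rw [Measure.map_map hT measurable_snd]
  have : T' ∘ (Prod.snd : Ω × Ω → Ω) = Prod.snd ∘ Prod.map T T' := rfl
  rw [this, ← Measure.map_map measurable_snd h.measurable, h.map_eq]

/-- the integral of a nonnegative function for a smaller measure -/
theorem int_le_of_le {ν' : Measure Ω} [IsProbabilityMeasure ν'] {h : Ω → ℝ} {n : ℕ}
    (h0 : ∀ x, 0 ≤ h x) (hi : Integrable h μ)
    (hle : ∀ s : Set Ω, MeasurableSet s → ν' s ≤ n * μ s) :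
    ∫ x, h x ∂ν' ≤ n * ∫ x, h x ∂μ := by
  have h1 : ν' ≤ (n : ENNReal) • μ := Measure.le_iff.2 fun s hs => by
    rw [Measure.smul_apply, smul_eq_mul]; exact hle s hs
  have h2 : Integrable h ((n : ENNReal) • μ) := hi.smul_measure (ENNReal.natCast_ne_top n)
  have h3 := integral_mono_measure h1 (Eventually.of_forall h0) h2
  rw [integral_smul_measure] at h3
  simpa using h3

/-- correlations of functions which are close -/
theorem corr_close {κ : Measure (Ω × Ω)} [IsProbabilityMeasure κ] {G G' : Ω → ℂ}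
    (hG : Measurable G) (hG' : Measurable G') (hb : ∀ x, ‖G x‖ ≤ 1) (hb' : ∀ x, ‖G' x‖ ≤ 1)
    {t : ℝ} (ht : 0 ≤ t) (h1 : ∫ x, ‖G x - G' x‖ ^ 2 ∂(κ.map Prod.fst) ≤ t ^ 2)
    (h2 : ∫ x, ‖G x - G' x‖ ^ 2 ∂(κ.map Prod.snd) ≤ t ^ 2) :
    ‖∫ z, G' z.1 * conj (G' z.2) ∂κ‖ ≤ ‖∫ z, G z.1 * conj (G z.2) ∂κ‖ + 2 * t := by
  have p1 : IsProbabilityMeasure (κ.map Prod.fst) :=
    Measure.isProbabilityMeasure_map measurable_fst.aemeasurable
  have p2 : IsProbabilityMeasure (κ.map Prod.snd) :=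
    Measure.isProbabilityMeasure_map measurable_snd.aemeasurable
  have hd : Measurable (fun x => G x - G' x) := hG.sub hG'
  have hdb : ∀ x, ‖G x - G' x‖ ≤ 2 := fun x => (norm_sub_le _ _).trans (by
    linarith [hb x, hb' x])
  have e1 : ∫ z, ‖G z.1 - G' z.1‖ ∂κ ≤ t := by
    have h3 : ∫ x, ‖G x - G' x‖ ∂(κ.map Prod.fst) ≤ t :=
      l1_of_l2 (MemLp.of_bound hd.aestronglyMeasurable 2 (Eventually.of_forall hdb)) ht h1
    rwa [integral_map measurable_fst.aemeasurable hd.norm.aestronglyMeasurable] at h3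
  have e2 : ∫ z, ‖G z.2 - G' z.2‖ ∂κ ≤ t := by
    have h3 : ∫ x, ‖G x - G' x‖ ∂(κ.map Prod.snd) ≤ t :=
      l1_of_l2 (MemLp.of_bound hd.aestronglyMeasurable 2 (Eventually.of_forall hdb)) ht h2
    rwa [integral_map measurable_snd.aemeasurable hd.norm.aestronglyMeasurable] at h3
  have m1 : Measurable (fun z : Ω × Ω => G z.1 * conj (G z.2)) :=
    (hG.comp measurable_fst).mul (Complex.continuous_conj.measurable.comp
      (hG.comp measurable_snd))
  have m2 : Measurable (fun z : Ω × Ω => G' z.1 * conj (G' z.2)) :=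
    (hG'.comp measurable_fst).mul (Complex.continuous_conj.measurable.comp
      (hG'.comp measurable_snd))
  have i1 : Integrable (fun z : Ω × Ω => G z.1 * conj (G z.2)) κ :=
    Integrable.of_bound m1.aestronglyMeasurable 1 (Eventually.of_forall fun z => by
      rw [norm_mul, RCLike.norm_conj]
      nlinarith [hb z.1, hb z.2, norm_nonneg (G z.1), norm_nonneg (G z.2)])
  have i2 : Integrable (fun z : Ω × Ω => G' z.1 * conj (G' z.2)) κ :=
    Integrable.of_bound m2.aestronglyMeasurable 1 (Eventually.of_forall fun z => by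
      rw [norm_mul, RCLike.norm_conj]
      nlinarith [hb' z.1, hb' z.2, norm_nonneg (G' z.1), norm_nonneg (G' z.2)])
  have j1 : Integrable (fun z : Ω × Ω => ‖G z.1 - G' z.1‖) κ :=
    Integrable.of_bound (hd.comp measurable_fst).norm.aestronglyMeasurable 2
      (Eventually.of_forall fun z => by
        simpa only [Function.comp_apply, norm_norm] using hdb z.1)
  have j2 : Integrable (fun z : Ω × Ω => ‖G z.2 - G' z.2‖) κ :=
    Integrable.of_bound (hd.comp measurable_snd).norm.aestronglyMeasurable 2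
      (Eventually.of_forall fun z => by
        simpa only [Function.comp_apply, norm_norm] using hdb z.2)
  have h4 : ‖∫ z, G' z.1 * conj (G' z.2) ∂κ - ∫ z, G z.1 * conj (G z.2) ∂κ‖ ≤ 2 * t := by
    rw [← integral_sub i2 i1]
    refine (norm_integral_le_integral_norm _).trans ?_
    have h5 : ∫ z, ‖G' z.1 * conj (G' z.2) - G z.1 * conj (G z.2)‖ ∂κ ≤
        ∫ z, (‖G z.1 - G' z.1‖ + ‖G z.2 - G' z.2‖) ∂κ := by
      refine integral_mono (i2.sub i1).norm (j1.add j2) fun z => ?_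
      have h6 : G' z.1 * conj (G' z.2) - G z.1 * conj (G z.2) =
          -((G z.1 - G' z.1) * conj (G' z.2)) - G z.1 * conj (G z.2 - G' z.2) := by
        rw [map_sub]; ring
      show ‖G' z.1 * conj (G' z.2) - G z.1 * conj (G z.2)‖ ≤ _
      rw [h6]
      refine (norm_sub_le _ _).trans ?_
      rw [norm_neg, norm_mul, norm_mul, RCLike.norm_conj, RCLike.norm_conj]
      have a1 := mul_le_mul_of_nonneg_left (hb' z.2) (norm_nonneg (G z.1 - G' z.1))
      have a2 := mul_le_mul_of_nonneg_right (hb z.1) (norm_nonneg (G z.2 - G' z.2))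
      linarith
    refine h5.trans ?_
    rw [integral_add j1 j2]
    linarith
  have h5 := norm_le_norm_add_norm_sub' (∫ z, G' z.1 * conj (G' z.2) ∂κ)
    (∫ z, G z.1 * conj (G z.2) ∂κ)
  linarith

end gen

theorem ms_norm_le (a : ℕ → ℂ) (N : ℕ) : ‖MS a N‖ ≤ ∑ n ∈ Icc 1 N, ‖a n‖ := by
  unfold MS
  refine (norm_sum_le _ _).trans (Finset.sum_le_sum fun n _ => ?_)
  rw [norm_mul]
  have h1 : ‖((ArithmeticFunction.moebius n : ℤ) : ℂ)‖ ≤ 1 := by
    rw [Complex.norm_intCast]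
    exact_mod_cast ArithmeticFunction.abs_moebius_le_one
  nlinarith [norm_nonneg (a n)]

theorem ms_add (a b : ℕ → ℂ) (N : ℕ) : MS (fun n => a n + b n) N = MS a N + MS b N := by
  unfold MS
  rw [← Finset.sum_add_distrib]
  exact Finset.sum_congr rfl fun n _ => by ring

theorem ms_smul (c : ℂ) (a : ℕ → ℂ) (N : ℕ) : MS (fun n => c * a n) N = c * MS a N := by
  unfold MS
  rw [Finset.mul_sum]
  exact Finset.sum_congr rfl fun n _ => by ring

/-- the bound for functions of norm at most one -/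
theorem zmn_aux (zkb : ST_ZKB) (zph : ST_ZPH) (zue : ST_ZUE) (zac : ST_ZAC) (zap : ST_ZAP)
    (zco : ST_ZCO) (zce : ST_ZCE) (zty : ST_ZTY) (Y : Type) [MetricSpace Y] [CompactSpace Y]
    [MeasurableSpace Y] [BorelSpace Y] (ν : Measure Y) [IsProbabilityMeasure ν] (S : Y → Y)
    (u : ℕ → Y → ℂ) (hS : Continuous S) (hU : Un S ν) (hT : Tu ν S u) (F : C(Y, ℂ))
    (hF : ∀ y, ‖F y‖ ≤ 1) (y : Y) (η : ℝ) (hη : 0 < η) (hη1 : η ≤ 1) :
    ∀ᶠ N : ℕ in atTop, ‖MS (fun n => F (S^[n] y)) N‖ ≤ η * N := by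
  obtain ⟨δ, hδ⟩ : ∃ δ : ℝ, δ = η / 10 := ⟨_, rfl⟩
  have hδ0 : 0 < δ := by rw [hδ]; positivity
  have hδ1 : δ ≤ 1 := by rw [hδ]; linarith
  obtain ⟨k, f, hfm, hf1, hfF⟩ := zce Y ν S u hT F (δ ^ 2) F.continuous.measurable hF
    (by positivity)
  obtain ⟨m, P, hm, hPm, hP1, hPinv, hcor⟩ := zty Y ν S u hS hU hT k f hfm hf1
  obtain ⟨c, hc, hkb⟩ := zkb δ hδ0 hδ1
  obtain ⟨q₀, hq₀⟩ := hcor c hc
  obtain ⟨P₁, hP₁⟩ := hkb q₀
  have hpr : Measurable (pr u k) := measurable_pi_iff.2 fun i => hT.meas i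
  -- the functions on `Y`
  obtain ⟨G, hG⟩ : ∃ G : Y → ℂ, G = fun y => (1 / 2 : ℂ) * (f (pr u k y) - P (pr u k y)) :=
    ⟨_, rfl⟩
  have hGm : Measurable G := by
    rw [hG]
    exact ((hfm.comp hpr).sub (hPm.comp hpr)).const_mul _
  have hG1 : ∀ y, ‖G y‖ ≤ 1 := by
    intro y
    rw [hG]
    simp only
    rw [norm_mul]
    have h1 : ‖f (pr u k y) - P (pr u k y)‖ ≤ 2 := (norm_sub_le _ _).trans (by
      linarith [hf1 (pr u k y), hP1 (pr u k y)])
    have h2 : ‖(1 / 2 : ℂ)‖ = 1 / 2 := by simp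
    rw [h2]
    linarith
  obtain ⟨ε₂, hε₂⟩ : ∃ ε₂ : ℝ, ε₂ = min (δ ^ 2) ((c / 8) ^ 2 / (P₁ * m + 1)) := ⟨_, rfl⟩
  have hε₂0 : 0 < ε₂ := by rw [hε₂]; exact lt_min (by positivity) (by positivity)
  have hε₂1 : ε₂ ≤ δ ^ 2 := by rw [hε₂]; exact min_le_left _ _
  have hε₂2 : ε₂ * (P₁ * m + 1) ≤ (c / 8) ^ 2 := by
    have h1 : ε₂ ≤ (c / 8) ^ 2 / (P₁ * m + 1) := by rw [hε₂]; exact min_le_right _ _
    rwa [le_div_iff₀ (by positivity)] at h1
  obtain ⟨G', hG'1, hGG'⟩ := zap Y ν G 1 ε₂ hGm hG1 hε₂0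
  obtain ⟨H, hH1, hPH⟩ := zap Y ν (fun y => P (pr u k y)) 1 (δ ^ 2) (hPm.comp hpr)
    (fun y => hP1 _) (by positivity)
  have hG'm : Measurable (G' : Y → ℂ) := G'.continuous.measurable
  have hHm : Measurable (H : Y → ℂ) := H.continuous.measurable
  -- the correlations
  have hco : ∀ p q : ℕ, p.Prime → q.Prime → p ≠ q → q₀ ≤ p → q₀ ≤ q → p ≤ P₁ → q ≤ P₁ →
      ∀ᶠ M : ℕ in atTop,
        ‖∑ n ∈ Icc 1 M, G' (S^[p * n] y) * conj (G' (S^[q * n] y))‖ ≤ c * M := by
    intro p q hp hq hpq _ hq0 hpP hqP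
    have h1 := zco Y S p q m G' (c / 2) (c / 2) hS hm (by positivity) ?_ y
    · filter_upwards [h1] with M hM
      refine hM.trans (le_of_eq ?_)
      ring
    intro κ hκ hκe
    have hdm : Measurable (fun x => G x - G' x) := hGm.sub hG'm
    have hdb : ∀ x, ‖G x - G' x‖ ≤ 2 := fun x => (norm_sub_le _ _).trans (by
      linarith [hG1 x, hG'1 x])
    have hint : Integrable (fun x => ‖G x - G' x‖ ^ 2) ν :=
      Integrable.of_bound (hdm.norm.pow_const 2).aestronglyMeasurable 4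
        (Eventually.of_forall fun x => by
          rw [norm_pow, norm_norm]
          nlinarith [hdb x, norm_nonneg (G x - G' x)])
    have hpm : ∀ r : ℕ, r.Prime → 1 ≤ r * m := fun r hr => Nat.one_le_iff_ne_zero.2 (by
      have := hr.pos
      positivity)
    have hbd : ∀ r : ℕ, r ≤ P₁ → ((r * m : ℕ) : ℝ) * ε₂ ≤ (c / 8) ^ 2 := by
      intro r hr
      refine le_trans ?_ hε₂2
      rw [mul_comm]
      refine mul_le_mul_of_nonneg_left ?_ hε₂0.le
      push_cast
      have : (r : ℝ) ≤ P₁ := by exact_mod_cast hr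
      nlinarith [(Nat.cast_nonneg m : (0 : ℝ) ≤ m)]
    have p1 : IsProbabilityMeasure (κ.map Prod.fst) :=
      Measure.isProbabilityMeasure_map measurable_fst.aemeasurable
    have p2 : IsProbabilityMeasure (κ.map Prod.snd) :=
      Measure.isProbabilityMeasure_map measurable_snd.aemeasurable
    have hSi : ∀ i : ℕ, Measurable S^[i] := fun i => hS.measurable.iterate i
    have a1 := (zac Y ν S hS.measurable hU).2 (p * m) (κ.map Prod.fst) (hpm p hp) p1
      (mp_fst (hSi _) hκe.toMeasurePreserving)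
    have a2 := (zac Y ν S hS.measurable hU).2 (q * m) (κ.map Prod.snd) (hpm q hq) p2
      (mp_snd (hSi _) hκe.toMeasurePreserving)
    have b1 : ∫ x, ‖G x - G' x‖ ^ 2 ∂(κ.map Prod.fst) ≤ (c / 8) ^ 2 := by
      refine (int_le_of_le (fun x => by positivity) hint a1).trans ?_
      exact (mul_le_mul_of_nonneg_left hGG' (Nat.cast_nonneg _)).trans (hbd p hpP)
    have b2 : ∫ x, ‖G x - G' x‖ ^ 2 ∂(κ.map Prod.snd) ≤ (c / 8) ^ 2 := by
      refine (int_le_of_le (fun x => by positivity) hint a2).trans ?_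
      exact (mul_le_mul_of_nonneg_left hGG' (Nat.cast_nonneg _)).trans (hbd q hqP)
    have h2 := corr_close hGm hG'm hG1 hG'1 (by positivity : (0 : ℝ) ≤ c / 8) b1 b2
    have h3 := hq₀ q hq0 hq p hp hpq κ hκ hκe
    have h4 : ∫ z, G z.1 * conj (G z.2) ∂κ = (1 / 4 : ℂ) *
        ∫ z, (f (pr u k z.1) - P (pr u k z.1)) *
          conj (f (pr u k z.2) - P (pr u k z.2)) ∂κ := by
      rw [← integral_const_mul]
      congr 1
      ext z
      rw [hG]
      simp only [map_mul, map_sub, map_div₀, map_one, Complex.conj_ofNat]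
      ring
    rw [h4, norm_mul] at h2
    have h5 : ‖(1 / 4 : ℂ)‖ = 1 / 4 := by simp
    rw [h5] at h2
    linarith
  have hA := hP₁ (fun n => G' (S^[n] y)) (fun n => hG'1 _) hco
  -- the periodic part
  have hPL : MemLp (fun y => P (pr u k y)) 2 ν :=
    MemLp.of_bound (hPm.comp hpr).aestronglyMeasurable 1 (Eventually.of_forall fun y => hP1 _)
  have hB := zph Y ν S hS hU m H (fun y => P (pr u k y)) δ hm hδ0 hH1 (hPm.comp hpr) hPL hPinv
    (by
      refine le_trans (le_of_eq ?_) hPH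
      congr 1
      ext x
      rw [norm_sub_rev]) y
  -- the rest
  obtain ⟨E, hE⟩ : ∃ E : C(Y, ℂ), E = F - (2 : ℂ) • G' - H := ⟨_, rfl⟩
  have hEy : ∀ x, E x = F x - 2 * G' x - H x := fun x => by
    rw [hE]
    simp
  have hEi : ∫ x, ‖E x‖ ∂ν ≤ 4 * δ := by
    have m1 : Measurable (fun x => F x - f (pr u k x)) :=
      F.continuous.measurable.sub (hfm.comp hpr)
    have m2 : Measurable (fun x => G x - G' x) := hGm.sub hG'm
    have m3 : Measurable (fun x => P (pr u k x) - H x) := (hPm.comp hpr).sub hHm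
    have l1 : MemLp (fun x => F x - f (pr u k x)) 2 ν :=
      MemLp.of_bound m1.aestronglyMeasurable 2 (Eventually.of_forall fun x =>
        (norm_sub_le _ _).trans (by linarith [hF x, hf1 (pr u k x)]))
    have l2 : MemLp (fun x => G x - G' x) 2 ν :=
      MemLp.of_bound m2.aestronglyMeasurable 2 (Eventually.of_forall fun x =>
        (norm_sub_le _ _).trans (by linarith [hG1 x, hG'1 x]))
    have l3 : MemLp (fun x => P (pr u k x) - H x) 2 ν :=
      MemLp.of_bound m3.aestronglyMeasurable 2 (Eventually.of_forall fun x =>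
        (norm_sub_le _ _).trans (by linarith [hP1 (pr u k x), hH1 x]))
    have e1 := l1_of_l2 l1 hδ0.le hfF
    have e2 := l1_of_l2 l2 hδ0.le (hGG'.trans hε₂1)
    have e3 := l1_of_l2 l3 hδ0.le hPH
    have i1 := (l1.integrable (by norm_num)).norm
    have i2 := (l2.integrable (by norm_num)).norm
    have i3 := (l3.integrable (by norm_num)).norm
    have h1 : ∫ x, ‖E x‖ ∂ν ≤ ∫ x, (‖F x - f (pr u k x)‖ + 2 * ‖G x - G' x‖ +
        ‖P (pr u k x) - H x‖) ∂ν := by
      refine integral_mono_of_nonneg (Eventually.of_forall fun x => norm_nonneg _)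
        ((i1.add (i2.const_mul 2)).add i3) (Eventually.of_forall fun x => ?_)
      have h2 : E x = (F x - f (pr u k x)) + 2 * (G x - G' x) + (P (pr u k x) - H x) := by
        rw [hEy, hG]
        ring
      simp only
      rw [h2]
      refine (norm_add_le _ _).trans (add_le_add_left ?_ _)
      refine (norm_add_le _ _).trans (add_le_add_right ?_ _)
      rw [norm_mul]
      simp
    refine h1.trans ?_
    have i4 : Integrable (fun x => 2 * ‖G x - G' x‖) ν := i2.const_mul 2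
    have i5 : Integrable (fun x => ‖F x - f (pr u k x)‖ + 2 * ‖G x - G' x‖) ν := i1.add i4
    rw [integral_add i5 i3, integral_add i1 i4, integral_const_mul]
    linarith
  have hC := (zue Y ν S hS hU ⟨fun x => ‖E x‖, E.continuous.norm⟩ y).2
  have hC1 : ∀ᶠ N : ℕ in atTop, (∑ n ∈ Icc 1 N, ‖E (S^[n] y)‖) / (N : ℝ) < 5 * δ := by
    refine (tendsto_order.1 hC).2 (5 * δ) ?_
    show ∫ x, ‖E x‖ ∂ν < 5 * δ
    linarith
  filter_upwards [hA, hB, hC1, eventually_ge_atTop 1] with N h1 h2 h3 hN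
  have hN0 : (0 : ℝ) < N := by exact_mod_cast hN
  rw [div_lt_iff₀ hN0] at h3
  have h4 : MS (fun n => F (S^[n] y)) N = 2 * MS (fun n => G' (S^[n] y)) N +
      MS (fun n => H (S^[n] y)) N + MS (fun n => E (S^[n] y)) N := by
    rw [← ms_smul, ← ms_add, ← ms_add]
    congr 1
    ext n
    rw [hEy]
    ring
  rw [h4]
  have h5 := ms_norm_le (fun n => E (S^[n] y)) N
  have h6 : ‖2 * MS (fun n => G' (S^[n] y)) N‖ ≤ 2 * (δ * N) := by
    rw [norm_mul]
    have : ‖(2 : ℂ)‖ = 2 := by simp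
    rw [this]
    linarith
  refine (norm_add₃_le).trans ?_
  have h7 : η * N = 10 * (δ * N) := by rw [hδ]; ring
  rw [h7]
  linarith

/-- ZMN: the theorem. -/
theorem st_ZMN (zkb : ST_ZKB) (zph : ST_ZPH) (zue : ST_ZUE) (zac : ST_ZAC) (zap : ST_ZAP)
    (zco : ST_ZCO) (zce : ST_ZCE) (zty : ST_ZTY) : ST_ZMN := by
  intro Y _ _ _ _ ν _ S u hS hU hT F y
  obtain ⟨B, hB⟩ : ∃ B : ℝ, B = ‖F‖ + 1 := ⟨_, rfl⟩
  have hB0 : 0 < B := by rw [hB]; positivity
  obtain ⟨F₁, hF₁⟩ : ∃ F₁ : C(Y, ℂ), F₁ = ((1 / B : ℝ) : ℂ) • F := ⟨_, rfl⟩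
  have hFy : ∀ x, F x = (B : ℂ) * F₁ x := fun x => by
    rw [hF₁]
    simp only [ContinuousMap.smul_apply, smul_eq_mul]
    have : (B : ℂ) ≠ 0 := by exact_mod_cast hB0.ne'
    push_cast
    field_simp
  have hF1 : ∀ x, ‖F₁ x‖ ≤ 1 := fun x => by
    rw [hF₁]
    simp only [ContinuousMap.smul_apply, smul_eq_mul]
    rw [norm_mul, Complex.norm_real, Real.norm_of_nonneg (by positivity), one_div,
      inv_mul_le_iff₀ hB0, mul_one, hB]
    linarith [F.norm_coe_le_norm x]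
  rw [Metric.tendsto_atTop]
  intro ε hε
  obtain ⟨η, hη⟩ : ∃ η : ℝ, η = min 1 (ε / (2 * B)) := ⟨_, rfl⟩
  have hη0 : 0 < η := by rw [hη]; exact lt_min one_pos (by positivity)
  have hη1 : η ≤ 1 := by rw [hη]; exact min_le_left _ _
  have hη2 : B * η ≤ ε / 2 := by
    have h1 : η ≤ ε / (2 * B) := by rw [hη]; exact min_le_right _ _
    rw [le_div_iff₀ (by positivity)] at h1
    linarith
  obtain ⟨N₀, hN₀⟩ := eventually_atTop.1
    (zmn_aux zkb zph zue zac zap zco zce zty Y ν S u hS hU hT F₁ hF1 y η hη0 hη1)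
  refine ⟨N₀ + 1, fun N hN => ?_⟩
  have hN0 : (0 : ℝ) < N := by exact_mod_cast (by omega : 0 < N)
  have h1 := hN₀ N (by omega)
  have h2 : MS (fun n => F (S^[n] y)) N = B * MS (fun n => F₁ (S^[n] y)) N := by
    rw [← ms_smul]
    congr 1
    ext n
    exact hFy _
  rw [dist_zero_right, norm_div, Complex.norm_natCast, h2, norm_mul, Complex.norm_real,
    Real.norm_of_nonneg hB0.le, div_lt_iff₀ hN0]
  calc B * ‖MS (fun n => F₁ (S^[n] y)) N‖ ≤ B * (η * N) := mul_le_mul_of_nonneg_left h1 hB0.le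
    _ = B * η * N := by ring
    _ ≤ ε / 2 * N := mul_le_mul_of_nonneg_right hη2 hN0.le
    _ < ε * N := by nlinarith

end Pool.Agent.Helper98.ZA
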