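import Pool.Agent.Helper98.ZA.Stmts
import Pool.Agent.Helper98.TA.MHA

/-!
Sheet ZA (MP_7a8f48_an), row ZAO: correlations for ergodic towers.
-/

set_option linter.unusedSectionVars false

open MeasureTheory Filter Topology Finset
open scoped ComplexConjugate

namespace Pool.Agent.Helper98.ZA

open Pool.Agent.Helper98.TW
open Pool.Agent.Helper98.TA
open Pool.Agent.Helper40.TWM (St HQ)
open Pool.Agent.Helper98.GY (JY JJY)
open Pool.Agent.Helper73.TWR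

section jj

variable {Ω : Type} [m0 : MeasurableSpace Ω] {μ : Measure Ω} [IsProbabilityMeasure μ]
  {S S' : Ω → Ω} {p q : ℕ} {κ : Measure (Ω × Ω)} {C : SA Ω} {F G : Ω → ℂ}

/-- the correlations of a joining -/
theorem corr_jy (h : JY S μ p q κ) (hF : MemLp F 2 μ) (hG : MemLp G 2 μ) :
    ‖∫ z, F z.1 * conj (G z.2) ∂κ‖ ≤ √(JJY κ F) * √(∫ x, ‖G x‖ ^ 2 ∂μ) := by
  have hprob : IsProbabilityMeasure κ := h.prob
  have hmp : MeasurePreserving Prod.fst κ μ := jy_mp1 h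
  have hmp' : MeasurePreserving Prod.snd κ μ := jy_mp2 h
  have h1 : MemLp (fun z : Ω × Ω => F z.1) 2 κ := hF.comp_measurePreserving hmp
  have h2 : MemLp (fun z : Ω × Ω => G z.2) 2 κ := hG.comp_measurePreserving hmp'
  have h2' : MemLp (fun z : Ω × Ω => conj (G z.2)) 2 κ := memLp_conj h2
  have hB : Lm (B2 Ω) := lm_cm measurable_snd (le_refl (inferInstance : MeasurableSpace Ω))
  have hG0 : AM κ (B2 Ω) (fun z : Ω × Ω => conj (G z.2)) := by
    obtain ⟨g, hg, hGg⟩ := hG.1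
    refine am_iff.2 ⟨fun z => conj (g z.2), ?_, ?_⟩
    · have e : Measurable[B2 Ω] (fun z : Ω × Ω => g z.2) :=
        hg.measurable.comp (comap_measurable (Prod.snd : Ω × Ω → Ω))
      exact Complex.continuous_conj.measurable.comp e
    · have := hmp'.quasiMeasurePreserving.ae hGg
      filter_upwards [this] with z hz
      rw [hz]
  have h3 : ∫ z, conj (G z.2) * (κ[fun z : Ω × Ω => F z.1|B2 Ω]) z ∂κ =
      ∫ z, conj (G z.2) * F z.1 ∂κ :=
    int_ce_left hB hG0 (l2_mul h2' h1) (h1.integrable (by norm_num))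
  have h4 : ∫ z, F z.1 * conj (G z.2) ∂κ =
      ∫ z, (κ[fun z : Ω × Ω => F z.1|B2 Ω]) z * conj (G z.2) ∂κ := by
    calc ∫ z, F z.1 * conj (G z.2) ∂κ = ∫ z, conj (G z.2) * F z.1 ∂κ := by
          congr 1; ext z; ring
      _ = ∫ z, conj (G z.2) * (κ[fun z : Ω × Ω => F z.1|B2 Ω]) z ∂κ := h3.symm
      _ = _ := by congr 1; ext z; ring
  have e1 : MemLp (κ[fun z : Ω × Ω => F z.1|B2 Ω]) 2 κ := ce_memLp h1
  rw [h4]
  have h5 := integral_mul_le_Lp_mul_Lq_of_nonneg (μ := κ)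
    (f := fun z => ‖(κ[fun z : Ω × Ω => F z.1|B2 Ω]) z‖) (g := fun z => ‖G z.2‖)
    (p := 2) (q := 2) (by constructor <;> norm_num)
    (Eventually.of_forall fun z => norm_nonneg _) (Eventually.of_forall fun z => norm_nonneg _)
    (by simpa using e1.norm) (by simpa using h2.norm)
  have h6 : ‖∫ z, (κ[fun z : Ω × Ω => F z.1|B2 Ω]) z * conj (G z.2) ∂κ‖ ≤
      ∫ z, ‖(κ[fun z : Ω × Ω => F z.1|B2 Ω]) z‖ * ‖G z.2‖ ∂κ := by
    refine (norm_integral_le_integral_norm _).trans (le_of_eq ?_)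
    congr 1
    ext z
    rw [norm_mul, RCLike.norm_conj]
  refine h6.trans (h5.trans (le_of_eq ?_))
  have h7 : AEStronglyMeasurable (fun x => ‖G x‖ ^ 2) (κ.map Prod.snd) := by
    rw [h.snd]; exact hG.1.norm.pow 2
  have h8 : ∫ x, ‖G x‖ ^ 2 ∂μ = ∫ z, ‖G z.2‖ ^ 2 ∂κ := by
    rw [← h.snd, integral_map hmp'.measurable.aemeasurable h7]
  rw [h8]
  simp only [Real.sqrt_eq_rpow, JJY, B2, cm]
  norm_num

/-- a bounded function of mean zero which is small in `C` -/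
theorem jjy_small (h : JY S μ p q κ) (hC : Lm C) {ε b : ℝ} (hε : 0 ≤ ε) (hε1 : ε ≤ 1)
    (hb : 1 ≤ b) (hJ : ∀ F : Ω → ℂ, Measurable F → MemLp F 2 μ → μ[F|C] =ᵐ[μ] 0 →
      JJY κ F ≤ ε * ∫ x, ‖F x‖ ^ 2 ∂μ) (hG : BF G) (hGb : ∫ x, ‖G x‖ ^ 2 ∂μ ≤ b ^ 2)
    (hm : ∫ x, ‖(μ[G|C]) x‖ ^ 2 ∂μ ≤ ε) : JJY κ G ≤ 10 * ε * b ^ 2 := by
  have hG2 : MemLp G 2 μ := bf_memLp hG
  obtain ⟨g, hg, hgC, hge⟩ := ce_bf (μ := μ) (𝒜 := C) hC hG
  have hg2 : MemLp g 2 μ := bf_memLp hg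
  have hgs : ∫ x, ‖g x‖ ^ 2 ∂μ ≤ ε := by
    refine le_trans (le_of_eq ?_) hm
    refine integral_congr_ae ?_
    filter_upwards [hge] with x hx
    rw [hx]
  have hF : BF (fun x => G x - g x) := bf_sub hG hg
  have hF2 : MemLp (fun x => G x - g x) 2 μ := bf_memLp hF
  have hF0 : μ[fun x => G x - g x|C] =ᵐ[μ] 0 := by
    have h2 := ce_sub (𝒜 := C) (hG2.integrable (by norm_num) : Integrable G μ)
      (hg2.integrable (by norm_num) : Integrable g μ)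
    have h3 : μ[g|C] =ᵐ[μ] g := ce_of_am hC (hg2.integrable (by norm_num)) hgC
    filter_upwards [h2, h3, hge] with x h4 h5 h6
    rw [h4, h5, h6]
    simp
  have h1 := hJ _ hF.1 hF2 hF0
  have h2 : ∫ x, ‖G x - g x‖ ^ 2 ∂μ ≤ 2 * b ^ 2 + 2 * ε := by
    have h3 := sq_add_le hG2 hg2.neg
    have h4 : ∫ x, ‖G x - g x‖ ^ 2 ∂μ = ∫ x, ‖G x + (-g) x‖ ^ 2 ∂μ := by
      simp only [Pi.neg_apply, ← sub_eq_add_neg]
    have h5 : ∫ x, ‖(-g) x‖ ^ 2 ∂μ = ∫ x, ‖g x‖ ^ 2 ∂μ := by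
      congr 1
      ext x
      rw [Pi.neg_apply, norm_neg]
    rw [h4]
    rw [h5] at h3
    linarith
  have h3 : JJY κ G = JJY κ (fun x => g x + (G x - g x)) := by
    refine JJY_congr h (Eventually.of_forall fun x => ?_)
    simp
  have h4 := JJY_add_le h hg2 hF2
  have h5 := JJY_le h hg2
  rw [h3]
  have h6 : JJY κ (fun x => G x - g x) ≤ ε * (2 * b ^ 2 + 2 * ε) :=
    h1.trans (mul_le_mul_of_nonneg_left h2 hε)
  have h7 : 1 ≤ b ^ 2 := by nlinarith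
  have h8 : ε * ε ≤ ε * 1 := mul_le_mul_of_nonneg_left hε1 hε
  have h9 : ε * 1 ≤ ε * b ^ 2 := mul_le_mul_of_nonneg_left h7 hε
  nlinarith

end jj

/-- ZAO: correlations for ergodic towers. -/
theorem st_ZAO (mha : ST_MHA) (zmj : ST_ZMJ) : ST_ZAO := by
  intro Ω _ μ _ S S' u N m B hsys herg hpe G hG hG0 ε hε
  have hB0 : μ B ≠ 0 := by
    intro h
    have := hpe.mass
    rw [h, mul_zero] at this
    exact zero_ne_one this
  have hν : IsProbabilityMeasure (ProbabilityTheory.cond μ B) :=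
    ProbabilityTheory.cond_isProbabilityMeasure hB0
  set ν := ProbabilityTheory.cond μ B with hνdef
  have hSm : ∀ i : ℕ, Measurable S^[i] := fun i => hsys.mp.measurable.iterate i
  have hSm' : ∀ i : ℕ, Measurable S'^[i] := fun i => hsys.mp'.measurable.iterate i
  have hinv : ∀ i : ℕ, ∀ᵐ x ∂μ, S'^[i] (S^[i] x) = x := by
    intro i
    induction i with
    | zero => exact Eventually.of_forall fun x => rfl
    | succ i ih =>
      have h1 := hsys.mp.quasiMeasurePreserving.ae ih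
      filter_upwards [h1, hsys.l] with x hx hl
      rw [Function.iterate_succ_apply' S' i, Function.iterate_succ_apply S i, hx, hl]
  obtain ⟨hGm, b₀, hb₀⟩ := hG
  obtain ⟨b, hb⟩ : ∃ b : ℝ, b = max b₀ 1 := ⟨_, rfl⟩
  have hb1 : 1 ≤ b := hb ▸ le_max_right _ _
  have hGb : ∀ x, ‖G x‖ ≤ b := fun x => (hb₀ x).trans (hb ▸ le_max_left _ _)
  let Gi : ℕ → Ω → ℂ := fun i x => G (S'^[i] x)
  have hGiB : ∀ i, BF (Gi i) := fun i => ⟨hGm.comp (hSm' i), b, fun x => hGb _⟩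
  have hGi2 : ∀ i, MemLp (Gi i) 2 ν := fun i => bf_memLp (hGiB i)
  have hGisq : ∀ i, ∫ x, ‖Gi i x‖ ^ 2 ∂ν ≤ b ^ 2 := by
    intro i
    have h1 : ∫ x, ‖Gi i x‖ ^ 2 ∂ν ≤ ∫ _, b ^ 2 ∂ν := by
      refine integral_mono_of_nonneg (Eventually.of_forall fun x => by positivity)
        (integrable_const _) (Eventually.of_forall fun x => ?_)
      exact pow_le_pow_left₀ (norm_nonneg _) (hGb _) 2
    simpa using h1
  have hGi0 : ∀ i < m, ∫ x, Gi i x ∂ν = 0 := by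
    intro i hi
    have h1 : ∫ x in B, Gi i x ∂μ = 0 := by
      have hmap : μ.map S^[i] = μ := (hsys.mp.iterate i).map_eq
      have h2 : ∫ x in B, Gi i x ∂(μ.map S^[i]) =
          ∫ x in S^[i] ⁻¹' B, Gi i (S^[i] x) ∂μ :=
        setIntegral_map hpe.meas (hGiB i).1.aestronglyMeasurable (hSm i).aemeasurable
      rw [hmap] at h2
      rw [h2, ← hG0 i hi]
      refine integral_congr_ae (ae_restrict_of_ae ?_)
      filter_upwards [hinv i] with x hx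
      show G (S'^[i] (S^[i] x)) = G x
      rw [hx]
    rw [hνdef, ProbabilityTheory.cond, integral_smul_measure, h1, smul_zero]
  obtain ⟨A, hA⟩ := hpe.tr
  set δ : ℝ := min 1 (ε ^ 2 / (10 * b ^ 4)) with hδ
  have hb0 : 0 < b := by linarith
  have hδ0 : 0 < δ := lt_min one_pos (by positivity)
  have hδ1 : δ ≤ 1 := min_le_left _ _
  have hδ2 : δ ≤ ε ^ 2 / (10 * b ^ 4) := min_le_right _ _
  obtain ⟨q₀, hq₀⟩ := mha Ω ν S^[m] S'^[m] u A N hpe.st hA 0 m (fun i : Fin m => Gi i) δ hδ0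
    (fun i => hGi2 i)
  refine ⟨q₀, fun q hq hqp p hp hpq κ hκ hκe hκ1 hκ2 => ?_⟩
  obtain ⟨i, hi, j, hj, hJ, hκB⟩ := zmj Ω μ S S' u N m B hsys herg hpe p q κ hκ hp.one_lt.le
    hqp.one_lt.le hκe hκ1 hκ2
  obtain ⟨C, hHQ, hC1, hC2⟩ := hq₀ q hq hqp p hp hpq _ hJ
  have hsm : ∫ x, ‖(ν[Gi i|C]) x‖ ^ 2 ∂ν ≤ δ := by
    have h1 := hC2 ⟨i, hi⟩
    simp only [hGi0 i hi, sub_zero] at h1
    exact h1
  have hJJ := jjy_small hJ hHQ.ia.1 hδ0.le hδ1 hb1 hC1 (hGiB i) (hGisq i) hsm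
  have hmap : ∫ z, G z.1 * conj (G z.2) ∂κ =
      ∫ z, Gi i z.1 * conj (Gi j z.2) ∂(κ.map (Prod.map S^[i] S^[j])) := by
    have hm2 : Measurable (fun z : Ω × Ω => Gi i z.1 * conj (Gi j z.2)) :=
      ((hGiB i).1.comp measurable_fst).mul (Complex.continuous_conj.measurable.comp
        ((hGiB j).1.comp measurable_snd))
    rw [integral_map ((hSm i).prodMap (hSm j)).aemeasurable hm2.aestronglyMeasurable]
    refine integral_congr_ae ?_
    have a1 : ∀ᵐ z ∂κ, S'^[i] (S^[i] z.1) = z.1 :=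
      ae_of_ae_map measurable_fst.aemeasurable (hκ1.ae_le (hinv i))
    have a2 : ∀ᵐ z ∂κ, S'^[j] (S^[j] z.2) = z.2 :=
      ae_of_ae_map measurable_snd.aemeasurable (hκ2.ae_le (hinv j))
    filter_upwards [a1, a2] with z h1 h2
    show G z.1 * conj (G z.2) = G (S'^[i] (S^[i] z.1)) * conj (G (S'^[j] (S^[j] z.2)))
    rw [h1, h2]
  rw [hmap]
  refine (corr_jy hJ (hGi2 i) (hGi2 j)).trans ?_
  have h1 : √(JJY (κ.map (Prod.map S^[i] S^[j])) (Gi i)) ≤ ε / b := by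
    rw [Real.sqrt_le_left (by positivity)]
    refine hJJ.trans ?_
    have h2 : 10 * δ * b ^ 2 ≤ 10 * (ε ^ 2 / (10 * b ^ 4)) * b ^ 2 := by
      have : 0 ≤ b ^ 2 := by positivity
      nlinarith
    refine h2.trans (le_of_eq ?_)
    field_simp
  have h2 : √(∫ x, ‖Gi j x‖ ^ 2 ∂ν) ≤ b := by
    rw [Real.sqrt_le_left hb0.le]
    exact hGisq j
  calc √(JJY (κ.map (Prod.map S^[i] S^[j])) (Gi i)) * √(∫ x, ‖Gi j x‖ ^ 2 ∂ν) ≤ ε / b * b :=
        mul_le_mul h1 h2 (Real.sqrt_nonneg _) (by positivity)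
    _ = ε := by field_simp

end Pool.Agent.Helper98.ZA
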