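import Pool.Agent.Helper40.GA.All
import Pool.Agent.Helper40.MR.CSTq
import Pool.Agent.Helper40.MR.All
import Pool.Agent.Helper16.AZ.All
import Pool.Agent.Helper16.MD.All
import Pool.Agent.Helper98.ZA.ZAO
import Pool.Agent.Helper98.ZA.ZMN
import Pool.Agent.Helper34.ZA.ZCO
import Pool.Agent.Helper49.ZA.ZAC
import Pool.Agent.Helper49.ZA.ZTR
import Pool.Agent.Helper53.ZA.ZTY
import Pool.Agent.Helper59.ZA.ZUE
import Pool.Agent.Helper73.ZA.ZFT
import Pool.Agent.Helper72.ZA.ZPH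
import Pool.Agent.Helper73.ZA.ZAP
import Pool.Agent.Helper73.ZA.ZCE
import Pool.Agent.Helper73.ZA.ZMR
import Pool.Agent.Helper92.ZA.ZKB
import Pool.Agent.Helper94.ZA.ZPP
import Pool.Agent.Helper94.ZA.ZTB
import Pool.Agent.Helper99.ZA.ZMJ
import Pool.Agent.Helper99.ZA.ZRL

/-!
All the modules of the theorem on uniquely ergodic models of inverse limits of iterated abelian
extensions put together.
-/

namespace Pool.Agent.Helper98.ZA

open Pool.Agent.Helper40.GA (a_MHA w_LT)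

theorem all_ZRL : ST_ZRL := Pool.Agent.Helper99.ZA.st_ZRL

theorem all_ZTB : ST_ZTB := Pool.Agent.Helper94.ZA.st_ZTB w_LT

theorem all_ZTR : ST_ZTR := Pool.Agent.Helper49.ZA.st_ZTR

theorem all_ZFT : ST_ZFT := Pool.Agent.Helper73.ZA.st_ZFT all_ZTB all_ZTR

theorem all_ZMJ : ST_ZMJ := Pool.Agent.Helper99.ZA.st_ZMJ

theorem all_ZAO : ST_ZAO := st_ZAO a_MHA all_ZMJ

theorem all_ZKB : ST_ZKB := Pool.Agent.Helper92.ZA.st_ZKB Pool.Agent.Helper16.AZ.all_KT1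
  Pool.Agent.Helper16.MD.all_WND

theorem all_ZMR : ST_ZMR := Pool.Agent.Helper73.ZA.st_ZMR Pool.Agent.Helper40.MR.all_NT

theorem all_ZUE : ST_ZUE := Pool.Agent.Helper59.ZA.st_ZUE

theorem all_ZAC : ST_ZAC := Pool.Agent.Helper49.ZA.st_ZAC

theorem all_ZAP : ST_ZAP := Pool.Agent.Helper73.ZA.st_ZAP

theorem all_ZCO : ST_ZCO := Pool.Agent.Helper34.ZA.st_ZCO

theorem all_ZPH : ST_ZPH := Pool.Agent.Helper72.ZA.st_ZPH all_ZMR all_ZUE

theorem all_ZCE : ST_ZCE := Pool.Agent.Helper73.ZA.st_ZCE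

theorem all_ZPP : ST_ZPP := Pool.Agent.Helper94.ZA.st_ZPP

theorem all_ZTY : ST_ZTY := Pool.Agent.Helper53.ZA.st_ZTY all_ZRL all_ZFT all_ZPP all_ZAO all_ZAC

theorem all_ZMN : ST_ZMN := st_ZMN all_ZKB all_ZPH all_ZUE all_ZAC all_ZAP all_ZCO all_ZCE all_ZTY

end Pool.Agent.Helper98.ZA
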